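import Pool.Agent.Helper10.TF.GL

/-!
# Even elements of the exterior algebra (for LIE3)
-/

set_option autoImplicit false

namespace Pool.TF48.H10

section ext

variable (X : Type)

abbrev Lam : Type := ExteriorAlgebra ℤ (X →₀ ℤ)

variable {X}

noncomputable def e (i : X) : Lam X := ExteriorAlgebra.ι ℤ (Finsupp.single i 1)

lemma ee (i j : X) : e i * e j = -(e j * e i) := by
  have := ExteriorAlgebra.ι_add_mul_swap (R := ℤ) (Finsupp.single i (1 : ℤ)) (Finsupp.single j 1)
  exact eq_neg_of_add_eq_zero_left this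

lemma e_sq (i : X) : e i * e i = 0 := ExteriorAlgebra.ι_sq_zero _

lemma ecomm (i j k l : X) : (e i * e j) * (e k * e l) = (e k * e l) * (e i * e j) := by
  calc (e i * e j) * (e k * e l) = e i * (e j * e k) * e l := by noncomm_ring
    _ = -(e i * e k * (e j * e l)) := by rw [ee j k]; noncomm_ring
    _ = -((e i * e k) * (e j * e l)) := rfl
    _ = (e k * e i) * (-(e l * e j)) := by rw [ee i k, ee j l]; noncomm_ring
    _ = -(e k * (e i * e l) * e j) := by noncomm_ring
    _ = (e k * e l) * (e i * e j) := by rw [ee i l]; noncomm_ring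

variable (X) in
def E2 : Set (Lam X) := {x | ∃ i j, x = e i * e j}

lemma E2comm : ∀ a ∈ E2 X, ∀ b ∈ E2 X, a * b = b * a := by
  rintro _ ⟨i, j, rfl⟩ _ ⟨k, l, rfl⟩
  exact ecomm i j k l

variable (X) in
def CC : Type := ↥(Algebra.adjoin ℤ (E2 X))

noncomputable instance : CommRing (CC X) :=
  { (inferInstance : Ring ↥(Algebra.adjoin ℤ (E2 X))) with
    mul_comm := fun a b => (Algebra.isMulCommutative_adjoin ℤ E2comm).is_comm.comm a b }

/-- the inclusion -/
noncomputable def vl : CC X →+* Lam X := (Algebra.adjoin ℤ (E2 X)).val.toRingHom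

lemma vl_inj : Function.Injective (vl : CC X →+* Lam X) := Subtype.val_injective

noncomputable def c (i j : X) : CC X := ⟨e i * e j, Algebra.subset_adjoin ⟨i, j, rfl⟩⟩

lemma vl_c (i j : X) : vl (c i j) = e i * e j := rfl

lemma c_self (i : X) : c i i = 0 := vl_inj (by rw [vl_c, e_sq, map_zero])

lemma c_swap (i j : X) : c i j = -c j i := vl_inj (by rw [map_neg, vl_c, vl_c, ee])

lemma c_rel (i j k l : X) : c i j * c k l = -(c i k * c j l) := by
  apply vl_inj
  rw [map_neg, map_mul, map_mul, vl_c, vl_c, vl_c, vl_c]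
  calc e i * e j * (e k * e l) = e i * (e j * e k) * e l := by noncomm_ring
    _ = -(e i * e k * (e j * e l)) := by rw [ee j k]; noncomm_ring

/-- the exterior algebra is torsion-free -/
lemma Lam_tf (k : ℕ) (hk : k ≠ 0) (x : Lam X) (h : k • x = 0) : x = 0 := by
  classical
  let _ : LinearOrder X := linearOrderOfSTO (WellOrderingRel)
  let b := (Finsupp.basisSingleOne (R := ℤ) (ι := X)).ExteriorAlgebra
  apply b.repr.injective
  rw [map_zero]
  have h1 : k • b.repr x = 0 := by rw [← map_nsmul, h, map_zero]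
  ext s
  have h2 := congrArg (fun f => f s) h1
  simp only [Finsupp.smul_apply, Finsupp.coe_zero, Pi.zero_apply, nsmul_eq_mul, mul_eq_zero] at h2
  rcases h2 with h2 | h2
  · exact absurd (Nat.cast_eq_zero.1 h2) hk
  · rw [h2]; rfl

lemma CC_tf (k : ℕ) (hk : k ≠ 0) (x : CC X) (h : k • x = 0) : x = 0 := by
  apply vl_inj
  rw [map_zero]
  apply Lam_tf k hk
  rw [← map_nsmul, h, map_zero]

section phi0

variable {U : Type} [Ring U] (hU : ∀ a b d : U, cm a b * d = d * cm a b) (r : X → U)

include hU in
lemma cm_mid (a b d : U) : cm a b * cm a d = 0 := by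
  have h1 : cm (a * b) a = a * cm b a := by unfold cm; noncomm_ring
  have h2 := hU (a * b) a d
  rw [h1] at h2
  have h3 := hU b a d
  have h4 : cm a d * cm b a = 0 := by
    calc cm a d * cm b a = a * (d * cm b a) - d * (a * cm b a) := by unfold cm; noncomm_ring
      _ = a * (cm b a * d) - (a * cm b a) * d := by rw [h3, h2]
      _ = 0 := by noncomm_ring
  rw [cm_swap a b]
  have h5 := hU a d (cm b a)
  rw [neg_mul, ← h5, h4, neg_zero]

/-- extension to the free module -/
noncomputable def LL : (X →₀ ℤ) →ₗ[ℤ] U := Finsupp.linearCombination ℤ r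

lemma LL_single (i : X) : LL r (Finsupp.single i 1) = r i := by
  unfold LL
  rw [Finsupp.linearCombination_single, one_smul]

/-- the odd part -/
def NN : Submodule ℤ ((X →₀ ℤ) →ₗ[ℤ] U) where
  carrier := {ψ | ∀ v w, cm (LL r v) (LL r w) * ψ v = 0}
  add_mem' := by
    intro a b ha hb v w
    rw [LinearMap.add_apply, mul_add, ha, hb, add_zero]
  zero_mem' := by
    intro v w
    rw [LinearMap.zero_apply, mul_zero]
  smul_mem' := by
    intro k a ha v w
    rw [LinearMap.smul_apply, mul_smul_comm, ha, smul_zero]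

/-- multiplication with a commutator -/
noncomputable def K0 (v : X →₀ ℤ) (u : U) : (X →₀ ℤ) →ₗ[ℤ] U where
  toFun := fun w => cm (LL r w) (LL r v) * u
  map_add' := by
    intro a b
    rw [map_add, cm_add_left, add_mul]
  map_smul' := by
    intro k a
    rw [map_smul]
    unfold cm
    simp only [RingHom.id_apply, smul_mul_assoc, mul_smul_comm, ← smul_sub]

/-- the space on which the exterior algebra acts -/
abbrev WW : Type := U × NN r

include hU in
lemma K0_mem (v : X →₀ ℤ) (u : U) : K0 r v u ∈ NN r := by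
  intro v' w'
  change cm (LL r v') (LL r w') * (cm (LL r v') (LL r v) * u) = 0
  rw [← mul_assoc, cm_mid hU, zero_mul]

noncomputable def Act1 (v : X →₀ ℤ) : WW r →ₗ[ℤ] WW r where
  toFun := fun w => ((w.2 : (X →₀ ℤ) →ₗ[ℤ] U) v, ⟨K0 r v w.1, K0_mem hU r v w.1⟩)
  map_add' := by
    intro a b
    ext1
    · rfl
    · apply Subtype.ext
      apply LinearMap.ext
      intro w
      change cm (LL r w) (LL r v) * (a.1 + b.1) = _
      rw [mul_add]
      rfl
  map_smul' := by
    intro k a
    ext1
    · rfl
    · apply Subtype.ext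
      apply LinearMap.ext
      intro w
      change cm (LL r w) (LL r v) * (k • a.1) = _
      rw [mul_smul_comm]
      rfl

noncomputable def Act : (X →₀ ℤ) →ₗ[ℤ] Module.End ℤ (WW r) where
  toFun := Act1 hU r
  map_add' := by
    intro a b
    apply LinearMap.ext
    intro x
    ext1
    · change (x.2 : (X →₀ ℤ) →ₗ[ℤ] U) (a + b) = _
      rw [map_add]
      rfl
    · apply Subtype.ext
      apply LinearMap.ext
      intro w
      change cm (LL r w) (LL r (a + b)) * x.1 = _
      rw [map_add, cm_add_right, add_mul]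
      rfl
  map_smul' := by
    intro k a
    apply LinearMap.ext
    intro x
    ext1
    · change (x.2 : (X →₀ ℤ) →ₗ[ℤ] U) (k • a) = _
      rw [map_smul]
      rfl
    · apply Subtype.ext
      apply LinearMap.ext
      intro w
      change cm (LL r w) (LL r (k • a)) * x.1 = k • (cm (LL r w) (LL r a) * x.1)
      rw [map_smul]
      unfold cm
      simp only [smul_mul_assoc, mul_smul_comm, ← smul_sub]

lemma Act_sq (v : X →₀ ℤ) : Act hU r v * Act hU r v = 0 := by
  apply LinearMap.ext
  intro x
  ext1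
  · change cm (LL r v) (LL r v) * x.1 = 0
    unfold cm
    rw [sub_self, zero_mul]
  · apply Subtype.ext
    apply LinearMap.ext
    intro w
    change cm (LL r w) (LL r v) * ((x.2 : (X →₀ ℤ) →ₗ[ℤ] U) v) = 0
    rw [cm_swap, neg_mul, x.2.2 v w, neg_zero]

/-- the action -/
noncomputable def RR : Lam X →ₐ[ℤ] Module.End ℤ (WW r) :=
  ExteriorAlgebra.lift ℤ ⟨Act hU r, Act_sq hU r⟩

lemma RR_ee (i j : X) (u : U) : RR hU r (e i * e j) (u, 0) = (cm (r i) (r j) * u, 0) := by
  unfold RR e
  rw [map_mul, ExteriorAlgebra.lift_ι_apply, ExteriorAlgebra.lift_ι_apply, Module.End.mul_apply]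
  ext1
  · change cm (LL r (Finsupp.single i 1)) (LL r (Finsupp.single j 1)) * u = _
    rw [LL_single, LL_single]
  · apply Subtype.ext
    apply LinearMap.ext
    intro w
    change cm (LL r w) (LL r (Finsupp.single i 1)) * (0 : U) = 0
    rw [mul_zero]

lemma RR_even (x : Lam X) (hx : x ∈ Algebra.adjoin ℤ (E2 X)) :
    ∀ u : U, (RR hU r x (u, 0)).2 = 0 := by
  induction hx using Algebra.adjoin_induction with
  | mem x hx =>
    obtain ⟨i, j, rfl⟩ := hx
    intro u
    rw [RR_ee]
  | algebraMap n =>
    intro u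
    rw [AlgHom.commutes, Module.algebraMap_end_apply]
    change n • (0 : NN r) = 0
    rw [smul_zero]
  | add x y _ _ hx hy =>
    intro u
    rw [map_add, LinearMap.add_apply, Prod.snd_add, hx, hy, add_zero]
  | mul x y _ _ hx hy =>
    intro u
    rw [map_mul, Module.End.mul_apply]
    have h1 : RR hU r y (u, 0) = ((RR hU r y (u, 0)).1, 0) := by
      ext1
      · rfl
      · exact hy u
    rw [h1]
    exact hx _

/-- the homomorphism to the subring generated by the commutators -/
noncomputable def phi0 : CC X →+ U where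
  toFun := fun g => (RR hU r (vl g) (1, 0)).1
  map_zero' := by rw [map_zero, map_zero]; rfl
  map_add' := by
    intro a b
    rw [map_add, map_add]
    rfl

lemma phi0_one : phi0 hU r 1 = 1 := by
  change (RR hU r (vl 1) (1, 0)).1 = 1
  rw [map_one, map_one]
  rfl

lemma phi0_c (i j : X) (g : CC X) : phi0 hU r (c i j * g) = cm (r i) (r j) * phi0 hU r g := by
  change (RR hU r (vl (c i j * g)) (1, 0)).1 = cm (r i) (r j) * (RR hU r (vl g) (1, 0)).1
  rw [map_mul, map_mul, Module.End.mul_apply, vl_c]
  have h1 : RR hU r (vl g) (1, 0) = ((RR hU r (vl g) (1, 0)).1, 0) := by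
    ext1
    · rfl
    · exact RR_even hU r _ g.2 1
  rw [h1, RR_ee]

end phi0

end ext

end Pool.TF48.H10
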