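import Mathlib

/-!
# Rings generated by elements with central commutators (for LIE3)
-/

set_option autoImplicit false

namespace Pool.TF48.H10

section gl

variable {X A : Type} [Ring A] (l : X → A)

/-- commutator -/
def cm (a b : A) : A := a * b - b * a

lemma cm_add_left (a a' b : A) : cm (a + a') b = cm a b + cm a' b := by unfold cm; noncomm_ring
lemma cm_add_right (a b b' : A) : cm a (b + b') = cm a b + cm a b' := by unfold cm; noncomm_ring
lemma cm_neg_left (a b : A) : cm (-a) b = -cm a b := by unfold cm; noncomm_ring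
lemma cm_neg_right (a b : A) : cm a (-b) = -cm a b := by unfold cm; noncomm_ring
lemma cm_mul_left (a a' b : A) : cm (a * a') b = a * cm a' b + cm a b * a' := by
  unfold cm; noncomm_ring
lemma cm_mul_right (a b b' : A) : cm a (b * b') = cm a b * b' + b * cm a b' := by
  unfold cm; noncomm_ring
lemma cm_swap (a b : A) : cm a b = -cm b a := by unfold cm; noncomm_ring
lemma cm_zero_left (b : A) : cm 0 b = 0 := by unfold cm; simp
lemma cm_zero_right (b : A) : cm b 0 = 0 := by unfold cm; simp
lemma cm_one_left (b : A) : cm 1 b = 0 := by unfold cm; simp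
lemma cm_one_right (b : A) : cm b 1 = 0 := by unfold cm; simp

variable {l}

/-- commuting with the generators -/
lemma comm_cl {z : A} (hz : ∀ i, z * l i = l i * z) {a : A}
    (ha : a ∈ Subring.closure (Set.range l)) : z * a = a * z := by
  induction ha using Subring.closure_induction with
  | mem x hx =>
    obtain ⟨i, rfl⟩ := hx
    exact hz i
  | zero => simp
  | one => simp
  | add x y _ _ hx hy => rw [mul_add, add_mul, hx, hy]
  | neg x _ hx => rw [mul_neg, neg_mul, hx]
  | mul x y _ _ hx hy => rw [← mul_assoc, hx, mul_assoc, hy, mul_assoc]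

variable (h1 : ∀ i j k, cm (l i) (l j) * l k = l k * cm (l i) (l j))
  (h2 : ∀ i j k m, cm (l i) (l j) * cm (l k) (l m) = -(cm (l i) (l k) * cm (l j) (l m)))

include h1 in
lemma kc {i j : X} {a : A} (ha : a ∈ Subring.closure (Set.range l)) :
    cm (l i) (l j) * a = a * cm (l i) (l j) := comm_cl (h1 i j) ha

include h1 h2 in
lemma q1 {a : A} (ha : a ∈ Subring.closure (Set.range l)) : ∀ x y z : X,
    cm a (l y) * cm (l x) (l z) + cm a (l z) * cm (l x) (l y) = 0 := by
  induction ha using Subring.closure_induction with
  | mem a ha =>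
    obtain ⟨i, rfl⟩ := ha
    intro x y z
    rw [h2 i y x z, h2 i z x y, cm_swap (l z) (l y)]
    noncomm_ring
  | zero => intro x y z; simp [cm_zero_left]
  | one => intro x y z; simp [cm_one_left]
  | add a b _ _ ha hb =>
    intro x y z
    have e1 := ha x y z
    have e2 := hb x y z
    rw [cm_add_left, cm_add_left]
    calc _ = (cm a (l y) * cm (l x) (l z) + cm a (l z) * cm (l x) (l y)) +
        (cm b (l y) * cm (l x) (l z) + cm b (l z) * cm (l x) (l y)) := by noncomm_ring
      _ = 0 := by rw [e1, e2, add_zero]
  | neg a _ ha =>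
    intro x y z
    have e1 := ha x y z
    rw [cm_neg_left, cm_neg_left]
    calc _ = -(cm a (l y) * cm (l x) (l z) + cm a (l z) * cm (l x) (l y)) := by noncomm_ring
      _ = 0 := by rw [e1, neg_zero]
  | mul a b ha' hb' ha hb =>
    intro x y z
    have e1 := ha x y z
    have e2 := hb x y z
    have k1 := kc h1 (i := x) (j := z) hb'
    have k2 := kc h1 (i := x) (j := y) hb'
    rw [cm_mul_left, cm_mul_left]
    calc _ = a * (cm b (l y) * cm (l x) (l z) + cm b (l z) * cm (l x) (l y)) +
        (cm a (l y) * (b * cm (l x) (l z)) + cm a (l z) * (b * cm (l x) (l y))) := by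
          noncomm_ring
      _ = (cm a (l y) * cm (l x) (l z) + cm a (l z) * cm (l x) (l y)) * b := by
          rw [e2, ← k1, ← k2]; noncomm_ring
      _ = 0 := by rw [e1, zero_mul]

include h1 h2 in
lemma q2 {a : A} (ha : a ∈ Subring.closure (Set.range l))
    (hP : ∀ y z, cm a (l y) * l z = l z * cm a (l y)) {b : A}
    (hb : b ∈ Subring.closure (Set.range l)) : ∀ y z : X,
    cm a (l y) * cm b (l z) + cm a (l z) * cm b (l y) = 0 := by
  induction hb using Subring.closure_induction with
  | mem b hb =>
    obtain ⟨i, rfl⟩ := hb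
    intro y z
    exact q1 h1 h2 ha i y z
  | zero => intro y z; simp [cm_zero_left]
  | one => intro y z; simp [cm_one_left]
  | add b c _ _ hb hc =>
    intro y z
    have e1 := hb y z
    have e2 := hc y z
    rw [cm_add_left, cm_add_left]
    calc _ = (cm a (l y) * cm b (l z) + cm a (l z) * cm b (l y)) +
        (cm a (l y) * cm c (l z) + cm a (l z) * cm c (l y)) := by noncomm_ring
      _ = 0 := by rw [e1, e2, add_zero]
  | neg b _ hb =>
    intro y z
    have e1 := hb y z
    rw [cm_neg_left, cm_neg_left]
    calc _ = -(cm a (l y) * cm b (l z) + cm a (l z) * cm b (l y)) := by noncomm_ring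
      _ = 0 := by rw [e1, neg_zero]
  | mul b c hb' hc' hb hc =>
    intro y z
    have e1 := hb y z
    have e2 := hc y z
    have k1 := comm_cl (hP y) hb'
    have k2 := comm_cl (hP z) hb'
    rw [cm_mul_left, cm_mul_left]
    calc _ = (cm a (l y) * b) * cm c (l z) + (cm a (l z) * b) * cm c (l y) +
        (cm a (l y) * cm b (l z) + cm a (l z) * cm b (l y)) * c := by noncomm_ring
      _ = b * (cm a (l y) * cm c (l z) + cm a (l z) * cm c (l y)) := by
          rw [k1, k2, e1]; noncomm_ring
      _ = 0 := by rw [e2, mul_zero]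

include h1 h2 in
lemma pp {a : A} (ha : a ∈ Subring.closure (Set.range l)) :
    ∀ y z, cm a (l y) * l z = l z * cm a (l y) := by
  induction ha using Subring.closure_induction with
  | mem a ha =>
    obtain ⟨i, rfl⟩ := ha
    exact h1 i
  | zero => intro y z; simp [cm_zero_left]
  | one => intro y z; simp [cm_one_left]
  | add a b _ _ ha hb =>
    intro y z
    rw [cm_add_left, add_mul, mul_add, ha, hb]
  | neg a _ ha =>
    intro y z
    rw [cm_neg_left, neg_mul, mul_neg, ha]
  | mul a b ha' hb' ha hb =>
    intro y z
    have e1 := q2 h1 h2 ha' ha hb' y z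
    have e2 := hb y z
    have e3 := ha y z
    rw [cm_mul_left]
    have e4 : (a * cm b (l y) + cm a (l y) * b) * l z - l z * (a * cm b (l y) + cm a (l y) * b) =
        a * (cm b (l y) * l z - l z * cm b (l y)) + cm a (l z) * cm b (l y) +
        (cm a (l y) * l z - l z * cm a (l y)) * b + cm a (l y) * cm b (l z) := by
      unfold cm; noncomm_ring
    rw [← sub_eq_zero, e4, e2, e3, sub_self, sub_self, mul_zero, zero_mul, zero_add, add_zero,
      add_comm, e1]

include h1 h2 in
lemma rr {a b : A} (ha : a ∈ Subring.closure (Set.range l))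
    (hb : b ∈ Subring.closure (Set.range l)) : ∀ w z : X,
    cm a b * cm (l w) (l z) + cm b (l z) * cm a (l w) = 0 := by
  induction hb using Subring.closure_induction with
  | mem b hb =>
    obtain ⟨v, rfl⟩ := hb
    intro w z
    have e1 := q1 h1 h2 ha w v z
    have e2 := q1 h1 h2 ha v w z
    have e3 : cm (l v) (l z) * cm a (l w) = cm a (l w) * cm (l v) (l z) := by
      apply kc h1
      unfold cm
      have hw : l w ∈ Subring.closure (Set.range l) := Subring.subset_closure ⟨w, rfl⟩
      exact sub_mem (mul_mem ha hw) (mul_mem hw ha)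
    rw [e3]
    rw [cm_swap (l w) (l v)] at e1
    calc _ = (cm a (l v) * cm (l w) (l z) + cm a (l z) * -cm (l v) (l w)) +
        (cm a (l w) * cm (l v) (l z) + cm a (l z) * cm (l v) (l w)) := by noncomm_ring
      _ = 0 := by rw [e1, e2, add_zero]
  | zero => intro y z; simp [cm_zero_left, cm_zero_right]
  | one => intro y z; simp [cm_one_left, cm_one_right]
  | add b c _ _ hb hc =>
    intro w z
    have e1 := hb w z
    have e2 := hc w z
    rw [cm_add_left, cm_add_right]
    calc _ = (cm a b * cm (l w) (l z) + cm b (l z) * cm a (l w)) +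
        (cm a c * cm (l w) (l z) + cm c (l z) * cm a (l w)) := by noncomm_ring
      _ = 0 := by rw [e1, e2, add_zero]
  | neg b _ hb =>
    intro w z
    have e1 := hb w z
    rw [cm_neg_left, cm_neg_right]
    calc _ = -(cm a b * cm (l w) (l z) + cm b (l z) * cm a (l w)) := by noncomm_ring
      _ = 0 := by rw [e1, neg_zero]
  | mul b c hb' hc' hb hc =>
    intro w z
    have e1 := hb w z
    have e2 := hc w z
    have k1 := kc h1 (i := w) (j := z) hc'
    have k2 := comm_cl (pp h1 h2 ha w) hc'
    rw [cm_mul_left, cm_mul_right]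
    calc _ = cm a b * (c * cm (l w) (l z)) + b * (cm a c * cm (l w) (l z) + cm c (l z) * cm a (l w))
        + cm b (l z) * (c * cm a (l w)) := by noncomm_ring
      _ = (cm a b * cm (l w) (l z) + cm b (l z) * cm a (l w)) * c := by
          rw [← k1, ← k2, e2]; noncomm_ring
      _ = 0 := by rw [e1, zero_mul]

include h1 h2 in
lemma tt {b : A} (hb : b ∈ Subring.closure (Set.range l))
    (hP : ∀ a ∈ Subring.closure (Set.range l), ∀ z, cm a b * l z = l z * cm a b) {c : A}
    (hc : c ∈ Subring.closure (Set.range l)) : ∀ a ∈ Subring.closure (Set.range l), ∀ z : X,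
    cm a b * cm c (l z) + cm b (l z) * cm a c = 0 := by
  induction hc using Subring.closure_induction with
  | mem c hc =>
    obtain ⟨w, rfl⟩ := hc
    intro a ha z
    exact rr h1 h2 ha hb w z
  | zero => intro a _ z; simp [cm_zero_left, cm_zero_right]
  | one => intro a _ z; simp [cm_one_left, cm_one_right]
  | add c d _ _ hc hd =>
    intro a ha z
    have e1 := hc a ha z
    have e2 := hd a ha z
    rw [cm_add_left, cm_add_right]
    calc _ = (cm a b * cm c (l z) + cm b (l z) * cm a c) +
        (cm a b * cm d (l z) + cm b (l z) * cm a d) := by noncomm_ring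
      _ = 0 := by rw [e1, e2, add_zero]
  | neg c _ hc =>
    intro a ha z
    have e1 := hc a ha z
    rw [cm_neg_left, cm_neg_right]
    calc _ = -(cm a b * cm c (l z) + cm b (l z) * cm a c) := by noncomm_ring
      _ = 0 := by rw [e1, neg_zero]
  | mul c d hc' hd' hc hd =>
    intro a ha z
    have e1 := hc a ha z
    have e2 := hd a ha z
    have k1 := comm_cl (hP a ha) hc'
    have k2 := comm_cl (pp h1 h2 hb z) hc'
    rw [cm_mul_left, cm_mul_right]
    calc _ = (cm a b * c) * cm d (l z) + (cm b (l z) * c) * cm a d +
        (cm a b * cm c (l z) + cm b (l z) * cm a c) * d := by noncomm_ring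
      _ = c * (cm a b * cm d (l z) + cm b (l z) * cm a d) := by
          rw [k1, k2, e1]; noncomm_ring
      _ = 0 := by rw [e2, mul_zero]

include h1 h2 in
lemma ps {b : A} (hb : b ∈ Subring.closure (Set.range l)) :
    ∀ a ∈ Subring.closure (Set.range l), ∀ z, cm a b * l z = l z * cm a b := by
  induction hb using Subring.closure_induction with
  | mem b hb =>
    obtain ⟨w, rfl⟩ := hb
    intro a ha z
    exact pp h1 h2 ha w z
  | zero => intro a _ z; simp [cm_zero_right]
  | one => intro a _ z; simp [cm_one_right]
  | add b c _ _ hb hc =>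
    intro a ha z
    rw [cm_add_right, add_mul, mul_add, hb a ha, hc a ha]
  | neg b _ hb =>
    intro a ha z
    rw [cm_neg_right, neg_mul, mul_neg, hb a ha]
  | mul b c hb' hc' hb hc =>
    intro a ha z
    have e1 := tt h1 h2 hb' hb hc' a ha z
    have e2 := hb a ha z
    have e3 := hc a ha z
    have k : b * cm a c - cm a c * b = 0 := by
      rw [sub_eq_zero]
      exact (comm_cl (hc a ha) hb').symm
    rw [cm_mul_right]
    have e4 : (cm a b * c + b * cm a c) * l z - l z * (cm a b * c + b * cm a c) =
        cm a b * cm c (l z) + (cm a b * l z - l z * cm a b) * c +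
        b * (cm a c * l z - l z * cm a c) + cm b (l z) * cm a c := by
      unfold cm; noncomm_ring
    rw [← sub_eq_zero, e4, e2, e3, sub_self, sub_self, mul_zero, zero_mul, add_zero, add_zero, e1]

include h1 h2 in
/-- all commutators are central -/
theorem gl {a b c : A} (ha : a ∈ Subring.closure (Set.range l))
    (hb : b ∈ Subring.closure (Set.range l)) (hc : c ∈ Subring.closure (Set.range l)) :
    cm a b * c = c * cm a b := comm_cl (ps h1 h2 hb a ha) hc

end gl

end Pool.TF48.H10
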