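import Pool.Agent.Helper10.TF.EXT
import Pool.Agent.Helper48.TF.Defs

/-!
# TF, part LIE3 (MP_097e5c_al): rings with `[x, y, z] = 0` are images of torsion-free PI rings
-/

set_option autoImplicit false

namespace Pool.TF48.H10

open Pool.TF48

section ord

variable {X U : Type} [LinearOrder X] [Ring U] (r : X → U)

/-- the ordered product -/
noncomputable def PM (M : Multiset X) : U := ((M.sort (· ≤ ·)).map r).prod

lemma PM_zero : PM r 0 = 1 := by
  unfold PM
  rw [Multiset.sort_zero]
  rfl

lemma PM_cons {m : X} {M : Multiset X} (h : ∀ b ∈ M, m ≤ b) : PM r (m ::ₘ M) = r m * PM r M := by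
  unfold PM
  rw [Multiset.sort_cons _ _ _ h, List.map_cons, List.prod_cons]

lemma ord (hU : ∀ a b d : U, cm a b * d = d * cm a b) (j : X) : ∀ (n : ℕ) (M : Multiset X),
    M.card = n → r j * PM r M = PM r (j ::ₘ M) +
      (M.map (fun k => if k < j then PM r (M.erase k) * cm (r j) (r k) else 0)).sum := by
  intro n
  induction n with
  | zero =>
    intro M hM
    rw [Multiset.card_eq_zero] at hM
    subst hM
    rw [PM_cons r (by simp), Multiset.map_zero, Multiset.sum_zero, add_zero]
  | succ n ih =>
    intro M hM
    obtain ⟨m, hmM, hmin⟩ : ∃ m ∈ M, ∀ b ∈ M, m ≤ b := by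
      have hne : M.toFinset.Nonempty := by
        rw [Multiset.toFinset_nonempty]
        intro h
        rw [h] at hM
        simp at hM
      refine ⟨M.toFinset.min' hne, Multiset.mem_toFinset.1 (Finset.min'_mem _ _), ?_⟩
      intro b hb
      exact Finset.min'_le _ _ (Multiset.mem_toFinset.2 hb)
    obtain ⟨M', rfl⟩ := Multiset.exists_cons_of_mem hmM
    have hcard : M'.card = n := by simpa using hM
    have hm' : ∀ b ∈ M', m ≤ b := fun b hb => hmin b (Multiset.mem_cons_of_mem hb)
    rcases le_or_gt j m with hjm | hmj
    · rw [PM_cons r (m := j) (M := m ::ₘ M') (fun b hb => hjm.trans (hmin b hb))]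
      have h0 : ((m ::ₘ M').map (fun k => if k < j then
          PM r ((m ::ₘ M').erase k) * cm (r j) (r k) else 0)).sum = 0 := by
        apply Multiset.sum_eq_zero
        intro x hx
        obtain ⟨k, hk, rfl⟩ := Multiset.mem_map.1 hx
        rw [if_neg (not_lt.2 (hjm.trans (hmin k hk)))]
      rw [h0, add_zero]
    · have e1 := ih M' hcard
      have e2 : r m * PM r (j ::ₘ M') = PM r (j ::ₘ m ::ₘ M') := by
        rw [Multiset.cons_swap, PM_cons r (m := m) (M := j ::ₘ M')]
        intro b hb
        rw [Multiset.mem_cons] at hb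
        rcases hb with rfl | hb
        · exact hmj.le
        · exact hm' b hb
      have e3 : r m * (M'.map (fun k => if k < j then PM r (M'.erase k) * cm (r j) (r k)
          else 0)).sum = (M'.map (fun k => if k < j then
            PM r ((m ::ₘ M').erase k) * cm (r j) (r k) else 0)).sum := by
        rw [← Multiset.sum_map_mul_left]
        congr 1
        apply Multiset.map_congr rfl
        intro k hk
        split_ifs with hkj
        · rw [← mul_assoc, ← PM_cons r (fun b hb => hm' b (Multiset.mem_of_mem_erase hb))]
          congr 2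
          by_cases hkm : k = m
          · subst hkm
            rw [Multiset.erase_cons_head, Multiset.cons_erase hk]
          · rw [Multiset.erase_cons_tail _ (fun h => hkm h.symm)]
        · rw [mul_zero]
      have e4 : r j * r m = r m * r j + cm (r j) (r m) := by unfold cm; noncomm_ring
      rw [PM_cons r (m := m) (M := M') hm', ← mul_assoc, e4, add_mul, mul_assoc, e1, mul_add, e2,
        e3, Multiset.map_cons, Multiset.sum_cons, if_pos hmj, Multiset.erase_cons_head,
        hU (r j) (r m)]
      abel

end ord

section model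

variable {X U : Type} [LinearOrder X] [Ring U] (hU : ∀ a b d : U, cm a b * d = d * cm a b)
  (r : X → U)

variable (X) in
/-- the module -/
abbrev GG : Type := MvPolynomial X (CC X)

/-- the derivations -/
noncomputable def DD (j : X) : Derivation (CC X) (GG X) (GG X) :=
  MvPolynomial.mkDerivation (CC X) (fun k => if k < j then MvPolynomial.C (c j k) else 0)

/-- the generators -/
noncomputable def lam (j : X) : AddMonoid.End (GG X) :=
  AddMonoidHom.mulLeft (MvPolynomial.X j) + (DD j).toLinearMap.toAddMonoidHom

lemma lam_apply (j : X) (g : GG X) : lam j g = MvPolynomial.X j * g + DD j g := rfl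

lemma DD_X (j k : X) : DD j (MvPolynomial.X k) = if k < j then MvPolynomial.C (c j k) else 0 :=
  MvPolynomial.mkDerivation_X _ _ _

lemma DD_C (j : X) (a : CC X) : DD j (MvPolynomial.C a) = 0 := by
  have := (DD j).map_algebraMap a
  exact this

lemma DD_comm (i j : X) (g : GG X) : DD i (DD j g) = DD j (DD i g) := by
  have h : ⁅DD i, DD j⁆ = (0 : Derivation (CC X) (GG X) (GG X)) := by
    apply MvPolynomial.derivation_ext
    intro k
    rw [Derivation.commutator_apply, DD_X, DD_X]
    split_ifs <;> simp [DD_C]
  have h2 := congrArg (fun D => D g) h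
  simp only [Derivation.commutator_apply, Derivation.coe_zero, Pi.zero_apply] at h2
  exact sub_eq_zero.1 h2

lemma cm_lam (i j : X) : cm (lam i) (lam j) = (AddMonoidHom.mulLeft
    (MvPolynomial.C (c i j) : GG X) : AddMonoid.End (GG X)) := by
  apply AddMonoidHom.ext
  intro g
  change lam i (lam j g) - lam j (lam i g) = MvPolynomial.C (c i j) * g
  simp only [lam_apply, map_add, Derivation.leibniz, DD_comm i j g, smul_eq_mul, DD_X]
  rcases lt_trichotomy i j with h | h | h
  · rw [if_neg (not_lt.2 h.le), if_pos h, c_swap j i, map_neg]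
    ring
  · subst h
    rw [if_neg (lt_irrefl _), c_self, map_zero]
    ring
  · rw [if_pos h, if_neg (not_lt.2 h.le)]
    ring

lemma lam_h1 (i j k : X) : cm (lam i) (lam j) * lam k = lam k * cm (lam i) (lam j) := by
  rw [cm_lam]
  apply AddMonoidHom.ext
  intro g
  change MvPolynomial.C (c i j) * (lam k g) = lam k (MvPolynomial.C (c i j) * g)
  simp only [lam_apply, Derivation.leibniz, DD_C, smul_eq_mul]
  ring

lemma lam_h2 (i j k m : X) : cm (lam i) (lam j) * cm (lam k) (lam m) =
    -(cm (lam i) (lam k) * cm (lam j) (lam m)) := by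
  rw [cm_lam, cm_lam, cm_lam, cm_lam]
  apply AddMonoidHom.ext
  intro g
  change MvPolynomial.C (c i j) * (MvPolynomial.C (c k m) * g) =
    -(MvPolynomial.C (c i k) * (MvPolynomial.C (c j m) * g))
  rw [← mul_assoc, ← mul_assoc, ← map_mul, ← map_mul, c_rel, map_neg]
  ring

/-- the map to `U` -/
noncomputable def phi : GG X →+ U :=
  (Finsupp.liftAddHom (fun s : X →₀ ℕ =>
    (AddMonoidHom.mulLeft (PM r (Finsupp.toMultiset s))).comp (phi0 hU r))).comp
    (AddMonoidAlgebra.coeffAddEquiv.toAddMonoidHom : GG X →+ ((X →₀ ℕ) →₀ CC X))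

lemma phi_monomial (s : X →₀ ℕ) (g : CC X) : phi hU r (MvPolynomial.monomial s g) =
    PM r (Finsupp.toMultiset s) * phi0 hU r g := by
  change (Finsupp.liftAddHom (fun s : X →₀ ℕ =>
    (AddMonoidHom.mulLeft (PM r (Finsupp.toMultiset s))).comp (phi0 hU r)))
    (Finsupp.single s g) = _
  rw [Finsupp.liftAddHom_apply_single]
  rfl

lemma phi_one : phi hU r 1 = 1 := by
  have : (1 : GG X) = MvPolynomial.monomial 0 1 := rfl
  rw [this, phi_monomial, phi0_one, mul_one]
  simp [PM_zero]

lemma phi_lam (j : X) (g : GG X) : phi hU r (lam j g) = r j * phi hU r g := by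
  induction g using MvPolynomial.induction_on' with
  | add p q hp hq => rw [map_add, map_add, map_add, mul_add, hp, hq]
  | monomial s a =>
    rw [lam_apply, map_add, phi_monomial]
    have e1 : (MvPolynomial.X j : GG X) * MvPolynomial.monomial s a =
        MvPolynomial.monomial (Finsupp.single j 1 + s) a := by
      rw [MvPolynomial.X, MvPolynomial.monomial_mul, one_mul]
    have e2 : Finsupp.toMultiset (Finsupp.single j 1 + s) = j ::ₘ Finsupp.toMultiset s := by
      rw [Finsupp.toMultiset_add, Finsupp.toMultiset_single, one_smul, Multiset.singleton_add]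
    rw [e1, phi_monomial, e2]
    have e3 : DD j (MvPolynomial.monomial s a) = ∑ i ∈ s.support,
        MvPolynomial.monomial (s - Finsupp.single i 1)
          (if i < j then (s i : CC X) * (c j i * a) else 0) := by
      unfold DD
      rw [MvPolynomial.mkDerivation_monomial, Finsupp.sum, Finset.smul_sum]
      apply Finset.sum_congr rfl
      intro i _
      split_ifs with h
      · rw [smul_eq_mul, mul_comm (MvPolynomial.monomial _ _), MvPolynomial.C_mul_monomial,
          MvPolynomial.smul_monomial]
        congr 1
        rw [smul_eq_mul]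
        ring
      · rw [smul_zero, smul_zero, map_zero]
    rw [e3, map_sum]
    have e4 : ∀ i ∈ s.support, phi hU r (MvPolynomial.monomial (s - Finsupp.single i 1)
          (if i < j then (s i : CC X) * (c j i * a) else 0)) =
        (s i) • ((if i < j then PM r ((Finsupp.toMultiset s).erase i) * cm (r j) (r i) else 0) *
          phi0 hU r a) := by
      intro i hi
      have e5 : Finsupp.toMultiset (s - Finsupp.single i 1) = (Finsupp.toMultiset s).erase i := by
        have h1 : s = (s - Finsupp.single i 1) + Finsupp.single i 1 := by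
          rw [tsub_add_cancel_of_le]
          rw [Finsupp.single_le_iff]
          exact Nat.one_le_iff_ne_zero.2 (Finsupp.mem_support_iff.1 hi)
        conv_rhs => rw [h1]
        rw [Finsupp.toMultiset_add, Finsupp.toMultiset_single, one_smul, add_comm,
          Multiset.singleton_add, Multiset.erase_cons_head]
      rw [phi_monomial, e5]
      split_ifs with h
      · rw [← nsmul_eq_mul, map_nsmul, phi0_c, mul_smul_comm, mul_assoc]
      · rw [map_zero, mul_zero, zero_mul, smul_zero]
    rw [Finset.sum_congr rfl e4, ← mul_assoc, ord r hU j _ _ rfl, add_mul]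
    congr 1
    rw [Finset.sum_multiset_map_count, Finsupp.toFinset_toMultiset, Finset.sum_mul]
    apply Finset.sum_congr rfl
    intro i _
    rw [Finsupp.count_toMultiset, smul_mul_assoc]

lemma GG_tf (k : ℕ) (hk : k ≠ 0) (x : GG X) (h : k • x = 0) : x = 0 := by
  ext s
  rw [MvPolynomial.coeff_zero]
  apply CC_tf k hk
  have := congrArg (MvPolynomial.coeff s) h
  rwa [MvPolynomial.coeff_zero, MvPolynomial.coeff_smul] at this

variable (X) in
/-- the torsion-free ring -/
abbrev SS : Type := ↥(NonUnitalSubring.closure (Set.range (lam : X → AddMonoid.End (GG X))))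

lemma SS_sub (s : SS X) : (s : AddMonoid.End (GG X)) ∈ Subring.closure (Set.range (lam : X → _)) := by
  have h : NonUnitalSubring.closure (Set.range (lam : X → AddMonoid.End (GG X))) ≤
      (Subring.closure (Set.range (lam : X → AddMonoid.End (GG X)))).toNonUnitalSubring :=
    NonUnitalSubring.closure_le.2 Subring.subset_closure
  exact h s.2

lemma SS_lie (a b d : SS X) : (a * b - b * a) * d = d * (a * b - b * a) := by
  apply Subtype.val_injective
  exact gl lam_h1 lam_h2 (SS_sub a) (SS_sub b) (SS_sub d)

lemma SS_tf (k : ℕ) (s : SS X) (hk : k ≠ 0) (h : k • s = 0) : s = 0 := by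
  apply Subtype.val_injective
  apply AddMonoidHom.ext
  intro g
  apply GG_tf k hk
  have h1 := congrArg (fun t : SS X => (t : AddMonoid.End (GG X)) g) h
  exact h1

/-- the identity `[x, y, z]` -/
noncomputable def f3 : FA ℕ :=
  MonoidAlgebra.single (FreeMonoid.ofList [0, 1, 2]) 1
    - MonoidAlgebra.single (FreeMonoid.ofList [1, 0, 2]) 1
    - MonoidAlgebra.single (FreeMonoid.ofList [2, 0, 1]) 1
    + MonoidAlgebra.single (FreeMonoid.ofList [2, 1, 0]) 1

lemma lft_one {B : Type} [Ring B] (r : ℕ → B) (l : List ℕ) :
    lft r (MonoidAlgebra.single (FreeMonoid.ofList l) 1) = (l.map r).prod := by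
  have h1 : lft r (MonoidAlgebra.single (FreeMonoid.ofList l) 1) =
    MonoidAlgebra.lift ℤ B (FreeMonoid ℕ) (FreeMonoid.lift r)
      (MonoidAlgebra.single (FreeMonoid.ofList l) 1) := rfl
  rw [h1, MonoidAlgebra.lift_single, FreeMonoid.lift_apply, FreeMonoid.toList_ofList, one_smul]

lemma ring_id {B : Type} [Ring B] (a b d : B) :
    a * (b * d) - b * (a * d) - d * (a * b) + d * (b * a) =
      (a * b - b * a) * d - d * (a * b - b * a) := by noncomm_ring

lemma pi_of_lie (R : Type) [NonUnitalRing R]
    (h : ∀ a b d : R, (a * b - b * a) * d = d * (a * b - b * a)) : PI R := by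
  refine ⟨f3, ?_, ⟨FreeMonoid.ofList [0, 1, 2], ?_⟩, ?_⟩
  · classical
    have e : ∀ l : List ℕ, l ≠ [] → (MonoidAlgebra.single (FreeMonoid.ofList l) (1 : ℤ)).coeff 1 = 0 := by
      intro l hl
      rw [MonoidAlgebra.coeff_single, Finsupp.single_apply, if_neg]
      intro h
      exact hl (FreeMonoid.ofList.injective h)
    unfold f3
    simp only [MonoidAlgebra.coeff_add, MonoidAlgebra.coeff_sub, Finsupp.add_apply,
      Finsupp.sub_apply]
    rw [e _ (by simp), e _ (by simp), e _ (by simp), e _ (by simp)]
    simp
  · classical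
    have e : ∀ l : List ℕ, l ≠ [0, 1, 2] →
        (MonoidAlgebra.single (FreeMonoid.ofList l) (1 : ℤ)).coeff (FreeMonoid.ofList [0, 1, 2]) = 0 := by
      intro l hl
      rw [MonoidAlgebra.coeff_single, Finsupp.single_apply, if_neg]
      intro h
      exact hl (FreeMonoid.ofList.injective h)
    unfold f3
    simp only [MonoidAlgebra.coeff_add, MonoidAlgebra.coeff_sub, Finsupp.add_apply,
      Finsupp.sub_apply]
    rw [e [1, 0, 2] (by simp), e [2, 0, 1] (by simp), e [2, 1, 0] (by simp),
      MonoidAlgebra.coeff_single, Finsupp.single_apply, if_pos rfl]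
    simp
  · intro r
    have hs : ∀ l : List ℕ, ev r (MonoidAlgebra.single (FreeMonoid.ofList l) 1) =
        (l.map (fun x => (r x : Unitization ℤ R))).prod := by
      intro l
      have h1 := lft_one (B := Unitization ℤ R) (fun x => (r x : Unitization ℤ R)) l
      exact h1
    unfold f3
    rw [map_add, map_sub, map_sub, hs, hs, hs, hs]
    simp only [List.map_cons, List.map_nil, List.prod_cons, List.prod_nil, mul_one]
    have h2 := congrArg (fun x : R => (x : Unitization ℤ R)) (h (r 0) (r 1) (r 2))
    simp only [Unitization.inr_mul, Unitization.inr_sub] at h2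
    refine (ring_id (B := Unitization ℤ R) (r 0 : Unitization ℤ R) (r 1 : Unitization ℤ R)
      (r 2 : Unitization ℤ R)).trans ?_
    apply sub_eq_zero.2
    exact h2

end model

lemma cm_int {B : Type} [Ring B] (m n : ℤ) (x y : B) : cm ((m : B) + x) ((n : B) + y) = cm x y := by
  unfold cm
  have h1 : (m : B) * (n : B) = (n : B) * (m : B) := Int.cast_comm m (n : B)
  have h2 : (m : B) * y = y * (m : B) := Int.cast_comm m y
  have h3 : (n : B) * x = x * (n : B) := Int.cast_comm n x
  rw [add_mul, mul_add, mul_add, add_mul, mul_add, mul_add, h1, h2, h3]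
  abel

lemma int_comm {B : Type} [Ring B] (m : ℤ) (z x : B) (h : z * x = x * z) :
    z * ((m : B) + x) = ((m : B) + x) * z := by
  rw [mul_add, add_mul, h, Int.cast_comm m z]

lemma U_lie (R : Type) [NonUnitalRing R]
    (h : ∀ x y z : R, (x * y - y * x) * z = z * (x * y - y * x)) (a b d : Unitization ℤ R) :
    cm a b * d = d * cm a b := by
  have hd : ∀ x : Unitization ℤ R, x = (x.fst : Unitization ℤ R) + (x.snd : Unitization ℤ R) := by
    intro x
    have h1 : (x.fst : Unitization ℤ R) = Unitization.inl x.fst :=
      (eq_intCast (Unitization.inlRingHom ℤ R) x.fst).symm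
    rw [h1]
    exact (Unitization.inl_fst_add_inr_snd_eq x).symm
  have e0 : cm (a.snd : Unitization ℤ R) (b.snd : Unitization ℤ R) =
      ((a.snd * b.snd - b.snd * a.snd : R) : Unitization ℤ R) := by
    rw [Unitization.inr_sub, Unitization.inr_mul, Unitization.inr_mul]
    rfl
  have e1 : cm a b = ((a.snd * b.snd - b.snd * a.snd : R) : Unitization ℤ R) := by
    rw [← e0]
    conv_lhs => rw [hd a, hd b]
    exact cm_int _ _ _ _
  rw [e1]
  conv_lhs => rw [hd d]
  conv_rhs => rw [hd d]
  apply int_comm
  have h3 := congrArg (fun x : R => (x : Unitization ℤ R)) (h a.snd b.snd d.snd)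
  simp only [Unitization.inr_mul] at h3
  exact h3

theorem lie3 : S_LIE3 := by
  intro R _ hR
  classical
  let _ : LinearOrder R := linearOrderOfSTO WellOrderingRel
  have hU := U_lie R hR
  let r : R → Unitization ℤ R := fun x => (x : Unitization ℤ R)
  let F : GG R →+ Unitization ℤ R := phi hU r
  have hF1 : F 1 = 1 := phi_one hU r
  have hFl : ∀ (j : R) (g : GG R), F (lam j g) = r j * F g := phi_lam hU r
  have key : ∀ s : AddMonoid.End (GG R),
      s ∈ NonUnitalSubring.closure (Set.range (lam : R → AddMonoid.End (GG R))) →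
      (∀ g, F (s g) = F (s 1) * F g) ∧ (F (s 1)).fst = 0 := by
    intro s hs
    induction hs using NonUnitalSubring.closure_induction with
    | mem x hx =>
      obtain ⟨j, rfl⟩ := hx
      constructor
      · intro g
        rw [hFl, hFl, hF1, mul_one]
      · rw [hFl, hF1, mul_one]
        exact Unitization.fst_inr _ _
    | zero =>
      constructor
      · intro g
        change F 0 = F 0 * F g
        rw [map_zero, zero_mul]
      · change (F 0).fst = 0
        rw [map_zero]
        rfl
    | add x y _ _ hx hy =>
      constructor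
      · intro g
        change F (x g + y g) = F (x 1 + y 1) * F g
        rw [map_add, map_add, add_mul, hx.1, hy.1]
      · change (F (x 1 + y 1)).fst = 0
        rw [map_add, Unitization.fst_add, hx.2, hy.2, add_zero]
    | neg x _ hx =>
      constructor
      · intro g
        change F (-(x g)) = F (-(x 1)) * F g
        rw [map_neg, map_neg, neg_mul, hx.1]
      · change (F (-(x 1))).fst = 0
        rw [map_neg, Unitization.fst_neg, hx.2, neg_zero]
    | mul x y _ _ hx hy =>
      constructor
      · intro g
        change F (x (y g)) = F (x (y 1)) * F g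
        rw [hx.1, hy.1, hx.1 (y 1)]
        exact (mul_assoc (F (x 1)) (F (y 1)) (F g)).symm
      · change (F (x (y 1))).fst = 0
        rw [hx.1, Unitization.fst_mul, hx.2, zero_mul]
  let θ : SS R →ₙ+* R :=
    { toFun := fun s => (F ((s : AddMonoid.End (GG R)) 1)).snd
      map_zero' := by
        change (F 0).snd = 0
        rw [map_zero]
        rfl
      map_add' := by
        intro s t
        change (F ((s : AddMonoid.End (GG R)) 1 + (t : AddMonoid.End (GG R)) 1)).snd = _
        rw [map_add, Unitization.snd_add]
      map_mul' := by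
        intro s t
        change (F ((s : AddMonoid.End (GG R)) ((t : AddMonoid.End (GG R)) 1))).snd = _
        rw [(key _ s.2).1, Unitization.snd_mul, (key _ s.2).2, (key _ t.2).2, zero_smul, zero_smul,
          zero_add, zero_add] }
  refine ⟨SS R, inferInstance, pi_of_lie _ SS_lie, fun k s hk h => SS_tf k s hk h, θ, ?_⟩
  intro x
  refine ⟨⟨lam x, NonUnitalSubring.subset_closure ⟨x, rfl⟩⟩, ?_⟩
  change (F (lam x 1)).snd = x
  rw [hFl, hF1, mul_one]
  exact Unitization.snd_inr _ _

end Pool.TF48.H10
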